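import Pool.Agent.TTC.StmtsC

/-!
Squad TTC (MP_160b6c_nt), row BNF: bounds for the resultants of a family.
-/

set_option autoImplicit false

namespace Pool.Agent.TTC.H27

open Polynomial

theorem siz_mono {A B : ℕ} {M M' : ℤ} {P : ℤ[X]} (h : Siz A M P) (hA : A ≤ B) (hM : M ≤ M') :
    Siz B M' P := ⟨h.1.trans hA, fun n => (h.2 n).trans hM⟩

theorem pw {A B H : ℕ} (hH : 1 ≤ H) (h : A ≤ B) : (A : ℤ) * (H : ℤ) ^ A ≤ B * (H : ℤ) ^ B := by
  have h1 : (1 : ℤ) ≤ H := by exact_mod_cast hH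
  have h2 : (H : ℤ) ^ A ≤ (H : ℤ) ^ B := pow_le_pow_right₀ h1 h
  have h3 : (A : ℤ) ≤ B := by exact_mod_cast h
  exact mul_le_mul h3 h2 (by positivity) (by positivity)

theorem siz_add {A B : ℕ} {M M' : ℤ} {P Q : ℤ[X]} (h : Siz A M P) (h' : Siz B M' Q) :
    Siz (A + B) (M + M') (P + Q) := by
  refine ⟨(natDegree_add_le P Q).trans (max_le ?_ ?_), fun n => ?_⟩
  · exact h.1.trans (Nat.le_add_right _ _)
  · exact h'.1.trans (Nat.le_add_left _ _)
  · rw [coeff_add]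
    exact (abs_add_le _ _).trans (add_le_add (h.2 n) (h'.2 n))

theorem siz_mul {A B : ℕ} {M M' : ℤ} {P Q : ℤ[X]} (hM : 0 ≤ M) (h : Siz A M P)
    (h' : Siz B M' Q) : Siz (A + B) ((A + 1) * (M * M')) (P * Q) := by
  refine ⟨natDegree_mul_le.trans (add_le_add h.1 h'.1), fun n => ?_⟩
  rw [coeff_mul, Finset.Nat.sum_antidiagonal_eq_sum_range_succ_mk]
  refine (Finset.abs_sum_le_sum_abs _ _).trans ?_
  have h0 : 0 ≤ M * M' := mul_nonneg hM ((abs_nonneg _).trans (h'.2 0))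
  calc ∑ i ∈ Finset.range n.succ, |P.coeff i * Q.coeff (n - i)|
      ≤ ∑ i ∈ Finset.range n.succ, if i ∈ Finset.range (A + 1) then M * M' else 0 := by
        refine Finset.sum_le_sum fun i _ => ?_
        split_ifs with hi
        · rw [abs_mul]
          exact mul_le_mul (h.2 i) (h'.2 _) (abs_nonneg _) hM
        · rw [Finset.mem_range, not_lt] at hi
          rw [coeff_eq_zero_of_natDegree_lt (lt_of_le_of_lt h.1 (Nat.lt_of_succ_le hi)), zero_mul,
            abs_zero]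
    _ = ∑ i ∈ Finset.range n.succ ∩ Finset.range (A + 1), M * M' := by
        rw [Finset.sum_ite_mem]
    _ ≤ ∑ i ∈ Finset.range (A + 1), M * M' :=
        Finset.sum_le_sum_of_subset_of_nonneg Finset.inter_subset_right fun _ _ _ => h0
    _ = (A + 1) * (M * M') := by
        rw [Finset.sum_const, Finset.card_range, nsmul_eq_mul]
        push_cast
        ring

/-- functions of `F` with polynomial bounds -/
def Gd (k : ℕ) (Φ : (Fin 5 → ℤ[X]) → ℤ[X]) : Prop :=
  ∃ A : ℕ, ∀ (H : ℕ) (F : Fin 5 → ℤ[X]), 1 ≤ H → (∀ i, Siz k H (F i)) →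
    Siz A (A * (H : ℤ) ^ A) (Φ F)

theorem gd_const (k : ℕ) (c : ℤ[X]) : Gd k fun _ => c := by
  classical
  refine ⟨c.natDegree + ∑ n ∈ c.support, (c.coeff n).natAbs, fun H F hH _ =>
    ⟨Nat.le_add_right _ _, fun n => ?_⟩⟩
  have h1 : |c.coeff n| ≤ ((c.natDegree + ∑ n ∈ c.support, (c.coeff n).natAbs : ℕ) : ℤ) := by
    by_cases hn : n ∈ c.support
    · rw [Int.abs_eq_natAbs]
      have h2 : (c.coeff n).natAbs ≤ ∑ n ∈ c.support, (c.coeff n).natAbs :=
        Finset.single_le_sum (f := fun n => (c.coeff n).natAbs) (fun _ _ => Nat.zero_le _) hn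
      exact_mod_cast h2.trans (Nat.le_add_left _ _)
    · rw [notMem_support_iff.1 hn, abs_zero]
      exact Int.natCast_nonneg _
  refine h1.trans (le_mul_of_one_le_right (Int.natCast_nonneg _) ?_)
  exact one_le_pow₀ (by exact_mod_cast hH)

theorem gd_var (k : ℕ) (i : Fin 5) : Gd k fun F => F i := by
  refine ⟨k + 1, fun H F hH hF => ⟨(hF i).1.trans (Nat.le_succ k), fun n => ((hF i).2 n).trans ?_⟩⟩
  have h1 : (1 : ℤ) ≤ H := by exact_mod_cast hH
  have h2 : (H : ℤ) ≤ (H : ℤ) ^ (k + 1) := by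
    calc (H : ℤ) = (H : ℤ) ^ 1 := (pow_one _).symm
      _ ≤ _ := pow_le_pow_right₀ h1 (by omega)
  refine h2.trans (le_mul_of_one_le_left (by positivity) ?_)
  push_cast
  linarith [Int.natCast_nonneg k]

theorem gd_add {k : ℕ} {Φ Ψ : (Fin 5 → ℤ[X]) → ℤ[X]} (h : Gd k Φ) (h' : Gd k Ψ) :
    Gd k fun F => Φ F + Ψ F := by
  obtain ⟨A, hA⟩ := h
  obtain ⟨B, hB⟩ := h'
  refine ⟨A + B, fun H F hH hF => siz_mono (siz_add (hA H F hH hF) (hB H F hH hF)) le_rfl ?_⟩
  have h1 : (1 : ℤ) ≤ H := by exact_mod_cast hH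
  have h2 : (H : ℤ) ^ A ≤ (H : ℤ) ^ (A + B) := pow_le_pow_right₀ h1 (Nat.le_add_right _ _)
  have h3 : (H : ℤ) ^ B ≤ (H : ℤ) ^ (A + B) := pow_le_pow_right₀ h1 (Nat.le_add_left _ _)
  push_cast
  rw [add_mul]
  exact add_le_add (mul_le_mul_of_nonneg_left h2 (Int.natCast_nonneg _))
    (mul_le_mul_of_nonneg_left h3 (Int.natCast_nonneg _))

theorem gd_mul {k : ℕ} {Φ Ψ : (Fin 5 → ℤ[X]) → ℤ[X]} (h : Gd k Φ) (h' : Gd k Ψ) :
    Gd k fun F => Φ F * Ψ F := by
  obtain ⟨A, hA⟩ := h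
  obtain ⟨B, hB⟩ := h'
  refine ⟨(A + 1) * (A * B) + (A + B), fun H F hH hF =>
    siz_mono (siz_mul (by positivity) (hA H F hH hF) (hB H F hH hF))
      (Nat.le_add_left _ _) ?_⟩
  have h1 : (1 : ℤ) ≤ H := by exact_mod_cast hH
  have h2 : (H : ℤ) ^ (A + B) ≤ (H : ℤ) ^ ((A + 1) * (A * B) + (A + B)) :=
    pow_le_pow_right₀ h1 (Nat.le_add_left _ _)
  have h3 : ((A : ℤ) + 1) * (A * (H : ℤ) ^ A * (B * (H : ℤ) ^ B)) =
      (((A + 1) * (A * B) : ℕ) : ℤ) * (H : ℤ) ^ (A + B) := by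
    push_cast
    ring
  rw [h3]
  refine mul_le_mul ?_ h2 (by positivity) (by positivity)
  exact_mod_cast Nat.le_add_right _ _

theorem gd_sum {k : ℕ} {α : Type} (s : Finset α) {Φ : α → (Fin 5 → ℤ[X]) → ℤ[X]}
    (h : ∀ a, Gd k (Φ a)) : Gd k fun F => ∑ a ∈ s, Φ a F := by
  classical
  induction s using Finset.induction_on with
  | empty => simpa using gd_const k 0
  | insert a s ha ih =>
    have h1 : (fun F => ∑ a ∈ insert a s, Φ a F) = fun F => Φ a F + ∑ a ∈ s, Φ a F := by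
      funext F
      exact Finset.sum_insert ha
    rw [h1]
    exact gd_add (h a) ih

theorem gd_prod {k : ℕ} {α : Type} (s : Finset α) {Φ : α → (Fin 5 → ℤ[X]) → ℤ[X]}
    (h : ∀ a, Gd k (Φ a)) : Gd k fun F => ∏ a ∈ s, Φ a F := by
  classical
  induction s using Finset.induction_on with
  | empty => simpa using gd_const k 1
  | insert a s ha ih =>
    have h1 : (fun F => ∏ a ∈ insert a s, Φ a F) = fun F => Φ a F * ∏ a ∈ s, Φ a F := by
      funext F
      exact Finset.prod_insert ha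
    rw [h1]
    exact gd_mul (h a) ih

theorem gd_det {k n : ℕ} {M : (Fin 5 → ℤ[X]) → Matrix (Fin n) (Fin n) ℤ[X]}
    (h : ∀ i j, Gd k fun F => M F i j) : Gd k fun F => (M F).det := by
  have h1 : (fun F => (M F).det) = fun F => ∑ σ : Equiv.Perm (Fin n),
      (((Equiv.Perm.sign σ : ℤ) : ℤ[X]) * ∏ i, M F (σ i) i) := by
    funext F
    rw [Matrix.det_apply]
    refine Finset.sum_congr rfl fun σ _ => ?_
    rw [Units.smul_def, zsmul_eq_mul]
  rw [h1]
  exact gd_sum _ fun σ => gd_mul (gd_const k _) (gd_prod _ fun i => h _ _)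

/-- polynomials with good coefficients -/
def Gp (k : ℕ) (p : (Fin 5 → ℤ[X]) → ℤ[X][X]) : Prop := ∀ n, Gd k fun F => (p F).coeff n

theorem gp_res {k m n : ℕ} {p q : (Fin 5 → ℤ[X]) → ℤ[X][X]} (hp : Gp k p) (hq : Gp k q) :
    Gd k fun F => resultant (p F) (q F) m n := by
  unfold resultant
  refine gd_det fun i j => ?_
  unfold sylvester
  simp only [Matrix.of_apply]
  refine Fin.addCases (fun j₁ => ?_) (fun j₁ => ?_) j
  · simp only [Fin.addCases_left]
    split_ifs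
    · exact hq _
    · exact gd_const k 0
  · simp only [Fin.addCases_right]
    split_ifs
    · exact hp _
    · exact gd_const k 0

theorem gp_add {k : ℕ} {p q : (Fin 5 → ℤ[X]) → ℤ[X][X]} (hp : Gp k p) (hq : Gp k q) :
    Gp k fun F => p F + q F := by
  intro n
  simp only [coeff_add]
  exact gd_add (hp n) (hq n)

theorem gp_cmul {k : ℕ} {p : (Fin 5 → ℤ[X]) → ℤ[X][X]} {c : (Fin 5 → ℤ[X]) → ℤ[X]} (hc : Gd k c)
    (hp : Gp k p) : Gp k fun F => C (c F) * p F := by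
  intro n
  simp only [coeff_C_mul]
  exact gd_mul hc (hp n)

theorem gp_const (k : ℕ) (p : ℤ[X][X]) : Gp k fun _ => p := fun _ => gd_const k _

theorem gp_der {k : ℕ} {p : (Fin 5 → ℤ[X]) → ℤ[X][X]} (hp : Gp k p) :
    Gp k fun F => derivative (p F) := by
  intro n
  simp only [coeff_derivative]
  exact gd_mul (hp _) (gd_const k _)

theorem gp_quin (k : ℕ) : Gp k fun F => quin F := by
  unfold quin
  refine gp_add (gp_add (gp_add (gp_add (gp_add (gp_const k _) ?_) ?_) ?_) ?_) ?_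
  · exact gp_cmul (gd_var k 0) (gp_const k _)
  · exact gp_cmul (gd_var k 1) (gp_const k _)
  · exact gp_cmul (gd_var k 2) (gp_const k _)
  · exact gp_cmul (gd_var k 3) (gp_const k _)
  · intro n
    simp only [coeff_C]
    split_ifs
    · exact gd_var k 4
    · exact gd_const k 0

theorem bnf : BnfStmt := by
  intro k
  obtain ⟨A, hA⟩ : Gd k fun F => dr F := gp_res (gp_quin k) (gp_der (gp_quin k))
  have h1 : ∀ m : ℕ, Gd k fun F => er m F := fun m =>
    gp_res (gp_der (gp_quin k)) (gp_add (gp_der (gp_der (gp_quin k)))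
      (gp_cmul (gd_const k _) (gp_quin k)))
  choose B hB using h1
  refine ⟨A + ∑ m ∈ Finset.range 5, B m, fun H F hH hF => ⟨?_, fun m hm => ?_⟩⟩
  · have h2 : A ≤ A + ∑ m ∈ Finset.range 5, B m := Nat.le_add_right _ _
    exact siz_mono (hA H F hH hF) h2 (pw hH h2)
  · have h2 : B m ≤ A + ∑ m ∈ Finset.range 5, B m :=
      (Finset.single_le_sum (f := B) (fun _ _ => Nat.zero_le _)
        (Finset.mem_range.2 (by omega))).trans (Nat.le_add_left _ _)
    exact siz_mono (hB m H F hH hF) h2 (pw hH h2)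

end Pool.Agent.TTC.H27
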